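import Pool.Agent.Helper93.FZ.St

set_option autoImplicit false

namespace Pool.Agent.Helper95.FZ

open Finset
open Pool.Agent.Helper93.FZ

/-- Hall's theorem gives a permutation in the support. -/
private lemma hall {ι : Type} [Fintype ι] [DecidableEq ι] (d : ℕ) (M : ι → ι → ℕ)
    (hr : ∀ i, ∑ j, M i j = d + 1) (hc : ∀ j, ∑ i, M i j = d + 1) :
    ∃ σ : ι ≃ ι, ∀ i, 0 < M i (σ i) := by
  have h := (Fintype.all_card_le_filter_rel_iff_exists_injective
    (fun i j : ι => 0 < M i j)).1 ?_
  · obtain ⟨f, hf, hp⟩ := h
    have hb : Function.Bijective f := Finite.injective_iff_bijective.1 hf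
    exact ⟨Equiv.ofBijective f hb, fun i => hp i⟩
  · intro S
    have h1 : (d + 1) * S.card ≤
        (d + 1) * (univ.filter fun j => ∃ i ∈ S, 0 < M i j).card := by
      calc (d + 1) * S.card = ∑ i ∈ S, ∑ j, M i j := by
            rw [Finset.sum_congr rfl (fun i _ => hr i), Finset.sum_const, smul_eq_mul,
              Nat.mul_comm]
        _ = ∑ j, ∑ i ∈ S, M i j := Finset.sum_comm
        _ = ∑ j ∈ univ.filter (fun j => ∃ i ∈ S, 0 < M i j), ∑ i ∈ S, M i j := by
            symm
            apply Finset.sum_subset (Finset.subset_univ _)
            intro j _ hj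
            apply Finset.sum_eq_zero
            intro i hi
            by_contra hne
            apply hj
            simp only [Finset.mem_filter, Finset.mem_univ, true_and]
            exact ⟨i, hi, Nat.pos_of_ne_zero hne⟩
        _ ≤ ∑ j ∈ univ.filter (fun j => ∃ i ∈ S, 0 < M i j), (d + 1) := by
            apply Finset.sum_le_sum
            intro j _
            rw [← hc j]
            exact Finset.sum_le_sum_of_subset (Finset.subset_univ _)
        _ = (d + 1) * (univ.filter fun j => ∃ i ∈ S, 0 < M i j).card := by
            rw [Finset.sum_const, smul_eq_mul, Nat.mul_comm]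
    exact Nat.le_of_mul_le_mul_left h1 (Nat.succ_pos d)

theorem hKNM : StKNM := by
  intro ι _ _ d
  induction d with
  | zero =>
    intro M hr _
    refine ⟨fun t => t.elim0, fun i j => ?_⟩
    have h1 : M i j = 0 := (Finset.sum_eq_zero_iff.1 (hr i)) j (Finset.mem_univ j)
    rw [h1]
    symm
    rw [Finset.card_eq_zero]
    ext t
    exact t.elim0
  | succ d ih =>
    intro M hr hc
    obtain ⟨σ, hσ⟩ := hall d M hr hc
    have key : ∀ i j, M i j = (M i j - if σ i = j then 1 else 0) + (if σ i = j then 1 else 0) := by
      intro i j
      by_cases h : σ i = j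
      · have := hσ i
        rw [h] at this
        simp only [h, if_true]
        omega
      · simp [h]
    have hr' : ∀ i, ∑ j, (M i j - if σ i = j then 1 else 0) = d := by
      intro i
      have h1 : ∑ j, M i j
          = ∑ j, (M i j - if σ i = j then 1 else 0) + ∑ j, (if σ i = j then 1 else 0) := by
        rw [← Finset.sum_add_distrib]
        exact Finset.sum_congr rfl (fun j _ => key i j)
      rw [hr i] at h1
      have h2 : ∑ j, (if σ i = j then 1 else 0) = 1 := by
        rw [Finset.sum_ite_eq]
        simp
      omega
    have hc' : ∀ j, ∑ i, (M i j - if σ i = j then 1 else 0) = d := by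
      intro j
      have h1 : ∑ i, M i j
          = ∑ i, (M i j - if σ i = j then 1 else 0) + ∑ i, (if σ i = j then 1 else 0) := by
        rw [← Finset.sum_add_distrib]
        exact Finset.sum_congr rfl (fun i _ => key i j)
      rw [hc j] at h1
      have h2 : ∑ i, (if σ i = j then 1 else 0) = 1 := by
        have h3 : ∀ i, (if σ i = j then (1 : ℕ) else 0) = if σ.symm j = i then 1 else 0 := by
          intro i
          by_cases h : σ i = j
          · have h4 : σ.symm j = i := by rw [← h]; exact σ.symm_apply_apply i
            simp [h, h4]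
          · have h4 : ¬ σ.symm j = i := by
              intro h5
              apply h
              rw [← h5]
              exact σ.apply_symm_apply j
            simp [h, h4]
        rw [Finset.sum_congr rfl (fun i _ => h3 i), Finset.sum_ite_eq]
        simp
      omega
    obtain ⟨f, hf⟩ := ih (fun i j => M i j - if σ i = j then 1 else 0) hr' hc'
    refine ⟨Fin.cons σ f, fun i j => ?_⟩
    rw [key i j]
    have h5 := hf i j
    rw [h5]
    have h6 : ∀ g : Fin (d + 1) → (ι ≃ ι), (univ.filter fun t : Fin (d + 1) => g t i = j).card
        = ∑ t : Fin (d + 1), if g t i = j then 1 else 0 := by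
      intro g
      rw [Finset.card_filter]
    have h7 : (univ.filter fun t : Fin d => f t i = j).card
        = ∑ t : Fin d, if f t i = j then 1 else 0 := by
      rw [Finset.card_filter]
    rw [h6, h7, Fin.sum_univ_succ]
    simp only [Fin.cons_zero, Fin.cons_succ]
    rw [Nat.add_comm]

end Pool.Agent.Helper95.FZ
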